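import Pool.Agent.NH15.FQ.Thm

set_option autoImplicit false

/-! The number of the primes `q ≤ M` such that `q ^ 2 - 2` has at most five prime factors, from the theorem on
`N = p + q`. -/

namespace Pool.Agent.NH15.FQ

open Finset Filter

/-- `q` is prime, `q ^ 2 - 2` has at most five prime factors, all of them `≥ M ^ (49/400)` -/
def QS (M : ℕ) : Set ℕ := {q | q.Prime ∧ (q ^ 2 - 2).primeFactorsList.length ≤ 5 ∧
  ∀ ℓ : ℕ, ℓ.Prime → ℓ ∣ q ^ 2 - 2 → (M : ℝ) ^ ((49 : ℝ) / 400) ≤ ℓ}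

/-- as `NH18.QP.Good 1 M N` -/
def Gd (M N q : ℕ) : Prop :=
  q.Prime ∧ ((N : ℤ) - (1 : ℕ) * q).toNat.Prime ∧ (q ^ 2 - 2).primeFactorsList.length ≤ 5 ∧
    ∀ ℓ : ℕ, ℓ.Prime → ℓ ∣ q ^ 2 - 2 → (M : ℝ) ^ ((49 : ℝ) / 400) ≤ ℓ

open Classical in
/-- the statement of `NH18.QP.almostN 1` -/
def AN : Prop := ∃ c : ℝ, 0 < c ∧ ∀ U : ℕ, ∃ M0 : ℕ, ∀ M : ℕ, M0 ≤ M →
    (((Icc 1 M).filter (fun N : ℕ => M / 4 < N ∧ N.Coprime 1 ∧ Odd (N + 1) ∧
      (((Icc 1 M).filter (Gd M N)).card : ℝ) < c * M / Real.log M ^ 3)).card : ℝ) ≤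
      M / Real.log M ^ U

open Classical in
/-- the members of `QS M` up to `M` -/
noncomputable def QF (M : ℕ) : Finset ℕ := (Icc 1 M).filter (fun q => q ∈ QS M)

lemma pairs_le (M : ℕ) (G : Finset ℕ) (hG : G ⊆ Icc 1 M) (T : ℝ) (hT : ∀ N ∈ G, ∀ S : Finset ℕ,
    (∀ q, q ∈ S ↔ q ∈ Icc 1 M ∧ Gd M N q) → T ≤ (S.card : ℝ)) :
    (G.card : ℝ) * T ≤ ((QF M).card : ℝ) * (Nat.primeCounting M : ℝ) := by
  classical
  have h1 : (G.card : ℝ) * T ≤ ∑ N ∈ G, (((Icc 1 M).filter (Gd M N)).card : ℝ) := by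
    rw [← nsmul_eq_mul]
    exact card_nsmul_le_sum _ _ _ fun N hN => hT N hN _ fun q => mem_filter
  have h2 : ∑ N ∈ G, (((Icc 1 M).filter (Gd M N)).card : ℝ) ≤
      ∑ q ∈ QF M, ((G.filter (fun N : ℕ => ((N : ℤ) - (1 : ℕ) * q).toNat.Prime)).card : ℝ) := by
    have h3 : ∑ N ∈ G, ((Icc 1 M).filter (Gd M N)).card ≤
        ∑ q ∈ QF M, (G.filter (fun N : ℕ => ((N : ℤ) - (1 : ℕ) * q).toNat.Prime)).card := by
      have e1 : ∀ N, ((Icc 1 M).filter (Gd M N)).card ≤
          ((QF M).filter (fun q : ℕ => ((N : ℤ) - (1 : ℕ) * q).toNat.Prime)).card := by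
        intro N
        apply card_le_card
        intro q hq
        rw [mem_filter] at hq
        obtain ⟨h4, h5, h6, h7, h8⟩ := hq
        unfold QF
        rw [mem_filter, mem_filter]
        exact ⟨⟨h4, h5, h7, h8⟩, h6⟩
      refine (sum_le_sum fun N _ => e1 N).trans (le_of_eq ?_)
      simp only [card_filter]
      exact sum_comm
    exact_mod_cast h3
  have h4 : ∀ q ∈ QF M, ((G.filter (fun N : ℕ => ((N : ℤ) - (1 : ℕ) * q).toNat.Prime)).card : ℝ) ≤
      (Nat.primeCounting M : ℝ) := by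
    intro q _
    have h5 : (G.filter (fun N : ℕ => ((N : ℤ) - (1 : ℕ) * q).toNat.Prime)).card ≤ Nat.primeCounting M := by
      rw [Nat.primeCounting, Nat.primeCounting', Nat.count_eq_card_filter_range]
      refine card_le_card_of_injOn (fun N : ℕ => ((N : ℤ) - (1 : ℕ) * q).toNat) ?_ ?_
      · intro N hN
        rw [mem_coe, mem_filter] at hN
        have h6 := mem_Icc.1 (hG hN.1)
        rw [mem_coe, mem_filter, mem_range]
        refine ⟨?_, hN.2⟩
        push_cast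
        omega
      · intro N hN N' hN' h
        rw [mem_coe, mem_filter] at hN hN'
        have h7 := hN.2.pos
        have h8 := hN'.2.pos
        push_cast at h h7 h8
        omega
    exact_mod_cast h5
  calc (G.card : ℝ) * T ≤ ∑ q ∈ QF M, ((G.filter (fun N : ℕ => ((N : ℤ) - (1 : ℕ) * q).toNat.Prime)).card : ℝ) :=
        h1.trans h2
    _ ≤ ∑ _q ∈ QF M, (Nat.primeCounting M : ℝ) := sum_le_sum h4
    _ = ((QF M).card : ℝ) * (Nat.primeCounting M : ℝ) := by rw [sum_const, nsmul_eq_mul]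

theorem QF_low (h : AN) : ∃ c : ℝ, 0 < c ∧ ∀ᶠ M : ℕ in atTop, c * (M / Real.log M ^ 2) ≤ ((QF M).card : ℝ) := by
  classical
  obtain ⟨c, hc, h⟩ := h
  obtain ⟨M0, h0⟩ := h 1
  refine ⟨c / 30, by positivity, ?_⟩
  have hlog : Tendsto (fun N : ℕ => Real.log (N : ℝ)) atTop atTop :=
    Real.tendsto_log_atTop.comp tendsto_natCast_atTop_atTop
  have hpi : ∀ᶠ M : ℕ in atTop, (Nat.primeCounting M : ℝ) ≤ 3 * (M / Real.log M) := by
    have h1 := tendsto_natCast_atTop_atTop (R := ℝ) |>.eventually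
      (Chebyshev.eventually_primeCounting_le (show (0 : ℝ) < 1 by norm_num))
    filter_upwards [h1, hlog.eventually_ge_atTop 1] with M hM hM1
    rw [Nat.floor_natCast] at hM
    refine hM.trans ?_
    have h2 : Real.log 4 ≤ 2 := by
      have h2 : Real.log 4 = 2 * Real.log 2 := by
        rw [show (4 : ℝ) = 2 ^ 2 by norm_num, Real.log_pow]
        norm_num
      have h3 := Real.log_two_lt_d9
      rw [h2]
      linarith
    have h3 : 0 ≤ (M : ℝ) / Real.log M := by positivity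
    rw [mul_div_assoc]
    exact mul_le_mul_of_nonneg_right (by linarith) h3
  filter_upwards [hpi, hlog.eventually_ge_atTop 10, eventually_ge_atTop (M0 + 20)] with M h1 h2 h3
  obtain ⟨L, hL⟩ : ∃ L, L = Real.log M := ⟨_, rfl⟩
  have hMr : (20 : ℝ) ≤ M := by exact_mod_cast (by omega : 20 ≤ M)
  have h4 := h0 M (by omega)
  rw [← hL] at h1 h2 h4
  have hL0 : 0 < L := by linarith
  obtain ⟨Ev, hEv⟩ : ∃ Ev, Ev = (Icc 1 M).filter (fun N => M / 4 < N ∧ N.Coprime 1 ∧ Odd (N + 1)) := ⟨_, rfl⟩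
  obtain ⟨G, hG⟩ : ∃ G, G = Ev.filter
    (fun N => ¬ (((Icc 1 M).filter (Gd M N)).card : ℝ) < c * M / L ^ 3) := ⟨_, rfl⟩
  have hEvc : M / 4 ≤ Ev.card := by
    calc M / 4 ≤ (Ioc (M / 4) (M / 2)).card := by rw [Nat.card_Ioc]; omega
      _ ≤ Ev.card := by
          refine card_le_card_of_injOn (fun t => 2 * t) ?_ ?_
          · intro t ht
            rw [mem_coe, mem_Ioc] at ht
            have h6 : 2 * t ∈ Ev := by
              rw [hEv, mem_filter, mem_Icc]
              exact ⟨⟨by omega, by omega⟩, by omega, Nat.coprime_one_right _, ⟨t, rfl⟩⟩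
            exact h6
          · intro t _ t' _ h5
            simp only at h5
            omega
  have hbad : ((Ev.filter (fun N => (((Icc 1 M).filter (Gd M N)).card : ℝ) < c * M / L ^ 3)).card : ℝ) ≤
      M / L ^ 1 := by
    refine le_trans ?_ h4
    have h5 : (Ev.filter (fun N => (((Icc 1 M).filter (Gd M N)).card : ℝ) < c * M / L ^ 3)).card ≤
        ((Icc 1 M).filter (fun N : ℕ => M / 4 < N ∧ N.Coprime 1 ∧ Odd (N + 1) ∧
          (((Icc 1 M).filter (Gd M N)).card : ℝ) < c * M / L ^ 3)).card := by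
      apply card_le_card
      intro N hN
      rw [mem_filter, hEv, mem_filter] at hN
      rw [mem_filter]
      exact ⟨hN.1.1, hN.1.2.1, hN.1.2.2.1, hN.1.2.2.2, hN.2⟩
    exact_mod_cast h5
  have hGc : (M : ℝ) / 10 ≤ (G.card : ℝ) := by
    have h5 : ((Ev.filter (fun N => (((Icc 1 M).filter (Gd M N)).card : ℝ) < c * M / L ^ 3)).card : ℝ) +
        (G.card : ℝ) = (Ev.card : ℝ) := by
      rw [hG]
      have h6 := card_filter_add_card_filter_not (s := Ev)
        (fun N : ℕ => (((Icc 1 M).filter (Gd M N)).card : ℝ) < c * M / L ^ (3 : ℕ))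
      exact_mod_cast h6
    have h6 : (M : ℝ) / 4 - 1 ≤ (Ev.card : ℝ) := by
      have h7 : M ≤ 4 * Ev.card + 3 := by omega
      have h8 : (M : ℝ) ≤ 4 * Ev.card + 3 := by exact_mod_cast h7
      linarith
    have h7 : (M : ℝ) / L ^ 1 ≤ M / 10 := by
      rw [pow_one]
      exact div_le_div_of_nonneg_left (by linarith) (by norm_num) h2
    linarith
  have h5 := pairs_le M G (by
      intro N hN
      rw [hG, mem_filter, hEv, mem_filter] at hN
      exact hN.1.1) (c * M / L ^ 3) (by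
      intro N hN S hS
      rw [hG, mem_filter, not_lt] at hN
      have : S = (Icc 1 M).filter (Gd M N) := by
        ext q
        rw [hS, mem_filter]
      rw [this]
      exact hN.2)
  have h6 : (M : ℝ) / 10 * (c * M / L ^ 3) ≤ ((QF M).card : ℝ) * (3 * (M / L)) :=
    calc (M : ℝ) / 10 * (c * M / L ^ 3) ≤ G.card * (c * M / L ^ 3) :=
          mul_le_mul_of_nonneg_right hGc (by positivity)
      _ ≤ ((QF M).card : ℝ) * (Nat.primeCounting M : ℝ) := h5
      _ ≤ ((QF M).card : ℝ) * (3 * (M / L)) := mul_le_mul_of_nonneg_left h1 (Nat.cast_nonneg _)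
  rw [← hL]
  have h7 : c / 30 * (M / L ^ 2) * (3 * (M / L)) ≤ ((QF M).card : ℝ) * (3 * (M / L)) := by
    refine le_trans (le_of_eq ?_) h6
    field_simp
    ring
  exact le_of_mul_le_mul_right h7 (by positivity)

end Pool.Agent.NH15.FQ
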