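import Pool.Agent.NH15.FQ.Cnt

set_option autoImplicit false

/-! The number of the primes `p < t` for which `q = ⌊(t - p) / m⌋` is prime and `q ^ 2 - 2` has at most five prime
factors. -/

namespace Pool.Agent.NH15.FQ

open Finset Filter
open Pool.Agent.W301.SS
open Pool.Agent.H373R2.T7

lemma SA_low (m N M : ℕ) (hM : m * M ≤ N) : (m : ℝ) * ((QF M).card - 1) ≤ ((SA m N (QS M)).card : ℝ) := by
  classical
  have h1 : ((QF M).filter (fun q => q < M)).card * m ≤ (SA m N (QS M)).card := by
    calc ((QF M).filter (fun q => q < M)).card * m = (((QF M).filter (fun q => q < M)) ×ˢ range m).card := by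
          rw [card_product, card_range]
      _ ≤ (SA m N (QS M)).card := by
          refine card_le_card_of_injOn (fun z => m * z.1 + z.2) ?_ ?_
          · intro z hz
            rw [mem_coe, mem_product, mem_filter, mem_range] at hz
            obtain ⟨⟨h2, h3⟩, h4⟩ := hz
            unfold QF at h2
            rw [mem_filter] at h2
            have h5 : m * z.1 + z.2 ∈ SA m N (QS M) := by
              rw [mem_SA]
              have h6 : (m * z.1 + z.2) / m = z.1 := by
                rw [add_comm, Nat.add_mul_div_left _ _ (by omega), Nat.div_eq_of_lt h4, zero_add]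
              rw [h6]
              refine ⟨?_, h2.2⟩
              calc m * z.1 + z.2 < m * (z.1 + 1) := by rw [mul_add, mul_one]; omega
                _ ≤ m * M := Nat.mul_le_mul_left _ h3
                _ ≤ N := hM
            exact h5
          · intro z hz z' hz' h
            rw [mem_coe, mem_product, mem_range] at hz hz'
            simp only at h
            have h6 : (m * z.1 + z.2) / m = z.1 := by
              rw [add_comm, Nat.add_mul_div_left _ _ (by omega), Nat.div_eq_of_lt hz.2, zero_add]
            have h7 : (m * z'.1 + z'.2) / m = z'.1 := by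
              rw [add_comm, Nat.add_mul_div_left _ _ (by omega), Nat.div_eq_of_lt hz'.2, zero_add]
            have h8 : z.1 = z'.1 := by rw [← h6, ← h7, h]
            refine Prod.ext h8 ?_
            rw [h8] at h
            omega
  have h2 : (QF M).card ≤ ((QF M).filter (fun q => q < M)).card + 1 := by
    have h3 : QF M ⊆ insert M ((QF M).filter (fun q => q < M)) := by
      intro q hq
      have h4 : q ≤ M := by
        unfold QF at hq
        rw [mem_filter, mem_Icc] at hq
        exact hq.1.2
      rw [mem_insert, mem_filter]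
      rcases h4.lt_or_eq with h5 | h5
      · exact Or.inr ⟨hq, h5⟩
      · exact Or.inl h5
    exact (card_le_card h3).trans (card_insert_le _ _)
  have h3 : ((QF M).card : ℝ) ≤ (((QF M).filter (fun q => q < M)).card : ℝ) + 1 := by exact_mod_cast h2
  have h4 : (((QF M).filter (fun q => q < M)).card : ℝ) * m ≤ ((SA m N (QS M)).card : ℝ) := by exact_mod_cast h1
  calc (m : ℝ) * ((QF M).card - 1) ≤ m * ((QF M).filter (fun q => q < M)).card :=
        mul_le_mul_of_nonneg_left (by linarith) (Nat.cast_nonneg _)
    _ = (((QF M).filter (fun q => q < M)).card : ℝ) * m := mul_comm _ _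
    _ ≤ _ := h4

/-- `p` is prime, `q = ⌊(t - p) / m⌋` is prime and `q ^ 2 - 2` has at most five prime factors, all of them
greater than `(t / m) ^ (1/9)` -/
def Rep (m t p : ℕ) : Prop :=
  p.Prime ∧ ((t - p) / m).Prime ∧ (((t - p) / m) ^ 2 - 2).primeFactorsList.length ≤ 5 ∧
    ∀ ℓ : ℕ, ℓ.Prime → ℓ ∣ ((t - p) / m) ^ 2 - 2 → t < m * ℓ ^ 9

open Classical in
lemma count_low (m N M t : ℕ) (_hm : 0 < m) (hM1 : N < m * (M + 1)) (ht : N < t) (ht2 : t ≤ 2 * N)
    (h9 : ∀ ℓ : ℕ, (M : ℝ) ^ ((49 : ℝ) / 400) ≤ ℓ → 2 * (M + 1) ≤ ℓ ^ 9) :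
    ∑ b ∈ SA m N (QS M), om (t - b) ≤
      (((range t).filter (Rep m t)).card : ℝ) * Real.log ((2 * N : ℕ) : ℝ) := by
  have hlog : 0 ≤ Real.log ((2 * N : ℕ) : ℝ) := Real.log_natCast_nonneg _
  have h1 : ∑ b ∈ SA m N (QS M), om (t - b) ≤
      ∑ b ∈ (SA m N (QS M)).filter (fun b => (t - b).Prime), Real.log ((2 * N : ℕ) : ℝ) := by
    rw [sum_filter]
    refine sum_le_sum fun b hb => ?_
    unfold om
    split_ifs with hp
    · exact Real.log_le_log (by exact_mod_cast hp.pos) (by exact_mod_cast (by omega : t - b ≤ 2 * N))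
    · exact le_rfl
  have h2 : ((SA m N (QS M)).filter (fun b => (t - b).Prime)).card ≤ ((range t).filter (Rep m t)).card := by
    refine card_le_card_of_injOn (fun b => t - b) ?_ ?_
    · intro b hb
      rw [mem_coe, mem_filter, mem_SA] at hb
      obtain ⟨⟨h3, h4⟩, h5⟩ := hb
      have hb0 : 0 < b := by
        by_contra hcon
        have : b = 0 := by omega
        rw [this, Nat.zero_div] at h4
        exact Nat.not_prime_zero h4.1
      have h6 : t - b ∈ (range t).filter (Rep m t) := by
        rw [mem_filter, mem_range]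
        have e : t - (t - b) = b := Nat.sub_sub_self (by omega)
        refine ⟨by omega, h5, ?_⟩
        rw [e]
        refine ⟨h4.1, h4.2.1, fun ℓ hℓ hd => ?_⟩
        have h7 := h9 ℓ (h4.2.2 ℓ hℓ hd)
        calc t ≤ 2 * N := ht2
          _ < 2 * (m * (M + 1)) := by omega
          _ = m * (2 * (M + 1)) := by ring
          _ ≤ m * ℓ ^ 9 := Nat.mul_le_mul_left _ h7
      exact h6
    · intro b hb b' hb' h
      rw [mem_coe, mem_filter, mem_SA] at hb hb'
      simp only at h
      omega
  refine h1.trans ?_
  rw [sum_const, nsmul_eq_mul]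
  exact mul_le_mul_of_nonneg_right (by exact_mod_cast h2) hlog

end Pool.Agent.NH15.FQ
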