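import Pool.Agent.NH15.CT.W1

set_option autoImplicit false

/-! Primes `p` with `⌊(t - p) / m⌋` in an arbitrary set, for `m` larger than a power of the logarithm. -/

namespace Pool.Agent.NH15.FQ

open Finset Filter
open Pool.Agent.W301.SS
open Pool.Agent.TH646.TT

open Classical in
/-- the `a < N` with `⌊a / m⌋ ∈ Q` -/
noncomputable def SA (m N : ℕ) (Q : Set ℕ) : Finset ℕ := (range N).filter (fun a => a / m ∈ Q)

lemma mem_SA {m N a : ℕ} {Q : Set ℕ} : a ∈ SA m N Q ↔ a < N ∧ a / m ∈ Q := by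
  classical
  unfold SA
  rw [mem_filter, mem_range]

/-- the `a < N` for which `a` and `a + h` belong to different intervals of length `m` -/
lemma cross (m N h : ℕ) (hm : 0 < m) :
    ((range N).filter (fun a => (a + h) / m ≠ a / m)).card ≤ (N / m + 1) * h := by
  calc ((range N).filter (fun a => (a + h) / m ≠ a / m)).card ≤ (range (N / m + 1) ×ˢ range h).card := by
        refine card_le_card_of_injOn (fun a => (a / m, m - 1 - a % m)) ?_ ?_
        · intro a ha
          rw [mem_coe, mem_filter, mem_range] at ha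
          obtain ⟨h1, h2⟩ := ha
          rw [mem_coe, mem_product, mem_range, mem_range]
          refine ⟨Nat.lt_succ_of_le (Nat.div_le_div_right h1.le), ?_⟩
          by_contra hcon
          apply h2
          have h3 := Nat.div_add_mod a m
          have h4 := Nat.mod_lt a hm
          have h5 : a % m + h < m := by
            simp only at hcon
            omega
          have h6 : a + h = (a % m + h) + m * (a / m) := by omega
          rw [h6, Nat.add_mul_div_left _ _ hm, Nat.div_eq_of_lt h5, zero_add]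
        · intro a _ b _ hab
          simp only [Prod.mk.injEq] at hab
          have h3 := Nat.div_add_mod a m
          have h4 := Nat.mod_lt a hm
          have h5 := Nat.div_add_mod b m
          have h6 := Nat.mod_lt b hm
          obtain ⟨h7, h8⟩ := hab
          rw [h7] at h3
          omega
    _ = (N / m + 1) * h := by rw [card_product, card_range, card_range]

/-- one shift -/
lemma shift (m N h t : ℕ) (Q : Set ℕ) (hm : 0 < m) (ht : N < t) (ht2 : t ≤ 2 * N) (hh : h ≤ N) :
    |∑ a ∈ SA m N Q, om (t - a + h) - ∑ b ∈ SA m N Q, om (t - b)| ≤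
      ((N / m + 2) * h : ℕ) * Real.log ((4 * N : ℕ) : ℝ) := by
  classical
  have hN : 1 ≤ 4 * N := by omega
  have hlog : 0 ≤ Real.log ((4 * N : ℕ) : ℝ) := Real.log_nonneg (by exact_mod_cast hN)
  have hom : ∀ n : ℕ, n ≤ 4 * N → om n ≤ Real.log ((4 * N : ℕ) : ℝ) := by
    intro n hn
    unfold om
    split_ifs with hp
    · exact Real.log_le_log (by exact_mod_cast hp.pos) (by exact_mod_cast hn)
    · exact hlog
  obtain ⟨A1, hA1⟩ : ∃ A1, A1 = (SA m N Q).filter (fun a => h ≤ a ∧ (a - h) / m = a / m) := ⟨_, rfl⟩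
  obtain ⟨A2, hA2⟩ : ∃ A2, A2 = (SA m N Q).filter (fun b => b + h < N ∧ (b + h) / m = b / m) := ⟨_, rfl⟩
  have e1 : ∑ a ∈ A1, om (t - a + h) = ∑ b ∈ A2, om (t - b) := by
    refine sum_nbij' (i := fun a : ℕ => a - h) (j := fun b : ℕ => b + h) ?_ ?_ ?_ ?_ ?_
    · intro a ha
      rw [hA1, mem_filter, mem_SA] at ha
      obtain ⟨⟨h1, h2⟩, h3, h4⟩ := ha
      rw [hA2, mem_filter, mem_SA, h4, Nat.sub_add_cancel h3]
      exact ⟨⟨by omega, h2⟩, h1, h4.symm ▸ rfl⟩
    · intro b hb
      rw [hA2, mem_filter, mem_SA] at hb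
      obtain ⟨⟨h1, h2⟩, h3, h4⟩ := hb
      rw [hA1, mem_filter, mem_SA, h4, Nat.add_sub_cancel]
      exact ⟨⟨h3, h2⟩, by omega, rfl⟩
    · intro a ha
      rw [hA1, mem_filter] at ha
      have := ha.2.1
      omega
    · intro b hb
      exact Nat.add_sub_cancel b h
    · intro a ha
      rw [hA1, mem_filter, mem_SA] at ha
      obtain ⟨⟨h1, h2⟩, h3, h4⟩ := ha
      have : t - a + h = t - (a - h) := by omega
      rw [this]
  have c1 : (((SA m N Q).filter (fun a => ¬ (h ≤ a ∧ (a - h) / m = a / m))).card : ℝ) ≤ ((N / m + 2) * h : ℕ) := by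
    have h5 : ((SA m N Q).filter (fun a => ¬ (h ≤ a ∧ (a - h) / m = a / m))).card ≤ (N / m + 2) * h := by
      calc ((SA m N Q).filter (fun a => ¬ (h ≤ a ∧ (a - h) / m = a / m))).card
          ≤ (range h ∪ ((range N).filter (fun a => (a + h) / m ≠ a / m)).image (fun a => a + h)).card := by
            apply card_le_card
            intro a ha
            rw [mem_filter, mem_SA] at ha
            obtain ⟨⟨h1, h2⟩, h3⟩ := ha
            rw [mem_union, mem_range, mem_image]
            by_cases h4 : a < h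
            · exact Or.inl h4
            · refine Or.inr ⟨a - h, ?_, by omega⟩
              rw [mem_filter, mem_range, Nat.sub_add_cancel (by omega)]
              refine ⟨by omega, fun h6 => h3 ⟨by omega, h6.symm⟩⟩
        _ ≤ h + (N / m + 1) * h := by
            refine (card_union_le _ _).trans ?_
            rw [card_range]
            exact Nat.add_le_add_left (card_image_le.trans (cross m N h hm)) _
        _ = (N / m + 2) * h := by ring
    exact_mod_cast h5
  have c2 : (((SA m N Q).filter (fun b => ¬ (b + h < N ∧ (b + h) / m = b / m))).card : ℝ) ≤ ((N / m + 2) * h : ℕ) := by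
    have h5 : ((SA m N Q).filter (fun b => ¬ (b + h < N ∧ (b + h) / m = b / m))).card ≤ (N / m + 2) * h := by
      calc ((SA m N Q).filter (fun b => ¬ (b + h < N ∧ (b + h) / m = b / m))).card
          ≤ ((Ico (N - h) N) ∪ ((range N).filter (fun a => (a + h) / m ≠ a / m))).card := by
            apply card_le_card
            intro b hb
            rw [mem_filter, mem_SA] at hb
            obtain ⟨⟨h1, h2⟩, h3⟩ := hb
            rw [mem_union, mem_Ico, mem_filter, mem_range]
            by_cases h4 : b + h < N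
            · exact Or.inr ⟨h1, fun h6 => h3 ⟨h4, h6⟩⟩
            · exact Or.inl ⟨by omega, h1⟩
        _ ≤ h + (N / m + 1) * h := by
            refine (card_union_le _ _).trans ?_
            rw [Nat.card_Ico]
            exact Nat.add_le_add (by omega) (cross m N h hm)
        _ = (N / m + 2) * h := by ring
    exact_mod_cast h5
  have s1 : ∑ a ∈ SA m N Q, om (t - a + h) = ∑ a ∈ A1, om (t - a + h) +
      ∑ a ∈ (SA m N Q).filter (fun a => ¬ (h ≤ a ∧ (a - h) / m = a / m)), om (t - a + h) := by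
    rw [hA1, sum_filter_add_sum_filter_not]
  have s2 : ∑ b ∈ SA m N Q, om (t - b) = ∑ b ∈ A2, om (t - b) +
      ∑ b ∈ (SA m N Q).filter (fun b => ¬ (b + h < N ∧ (b + h) / m = b / m)), om (t - b) := by
    rw [hA2, sum_filter_add_sum_filter_not]
  have u1 : ∑ a ∈ (SA m N Q).filter (fun a => ¬ (h ≤ a ∧ (a - h) / m = a / m)), om (t - a + h) ≤
      ((N / m + 2) * h : ℕ) * Real.log ((4 * N : ℕ) : ℝ) := by
    refine (sum_le_card_nsmul _ _ (Real.log ((4 * N : ℕ) : ℝ)) fun a _ => hom _ (by omega)).trans ?_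
    rw [nsmul_eq_mul]
    exact mul_le_mul_of_nonneg_right c1 hlog
  have u2 : ∑ b ∈ (SA m N Q).filter (fun b => ¬ (b + h < N ∧ (b + h) / m = b / m)), om (t - b) ≤
      ((N / m + 2) * h : ℕ) * Real.log ((4 * N : ℕ) : ℝ) := by
    refine (sum_le_card_nsmul _ _ (Real.log ((4 * N : ℕ) : ℝ)) fun a _ => hom _ (by omega)).trans ?_
    rw [nsmul_eq_mul]
    exact mul_le_mul_of_nonneg_right c2 hlog
  have v1 : 0 ≤ ∑ a ∈ (SA m N Q).filter (fun a => ¬ (h ≤ a ∧ (a - h) / m = a / m)), om (t - a + h) :=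
    sum_nonneg fun _ _ => om_nonneg _
  have v2 : 0 ≤ ∑ b ∈ (SA m N Q).filter (fun b => ¬ (b + h < N ∧ (b + h) / m = b / m)), om (t - b) :=
    sum_nonneg fun _ _ => om_nonneg _
  rw [s1, s2, e1, abs_le]
  constructor <;> linarith

/-- the windows of length `y` -/
lemma windows (m N y t : ℕ) (Q : Set ℕ) (hm : 0 < m) (hy : 0 < y) (ht : N < t) (ht2 : t ≤ 2 * N) (hyN : y ≤ N) :
    |∑ a ∈ SA m N Q, av y (t - a) - ∑ b ∈ SA m N Q, om (t - b)| ≤
      ((N / m + 2) * y : ℕ) * Real.log ((4 * N : ℕ) : ℝ) := by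
  have hy0 : (0 : ℝ) < y := by exact_mod_cast hy
  have hN : 1 ≤ 4 * N := by omega
  have hlog : 0 ≤ Real.log ((4 * N : ℕ) : ℝ) := Real.log_nonneg (by exact_mod_cast hN)
  have e1 : ∑ a ∈ SA m N Q, av y (t - a) - ∑ b ∈ SA m N Q, om (t - b) =
      (∑ h ∈ Ioc 0 y, (∑ a ∈ SA m N Q, om (t - a + h) - ∑ b ∈ SA m N Q, om (t - b))) / y := by
    rw [sum_sub_distrib, sum_const, Nat.card_Ioc, Nat.sub_zero, nsmul_eq_mul, sum_comm]
    unfold av
    rw [← sum_div, sub_div, mul_div_cancel_left₀ _ hy0.ne']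
  rw [e1, abs_div, abs_of_pos hy0, div_le_iff₀ hy0]
  refine (abs_sum_le_sum_abs _ _).trans ?_
  calc ∑ h ∈ Ioc 0 y, |∑ a ∈ SA m N Q, om (t - a + h) - ∑ b ∈ SA m N Q, om (t - b)|
      ≤ ∑ _h ∈ Ioc 0 y, (((N / m + 2) * y : ℕ) * Real.log ((4 * N : ℕ) : ℝ)) := by
        refine sum_le_sum fun h hh => ?_
        rw [mem_Ioc] at hh
        refine (shift m N h t Q hm ht ht2 (by omega)).trans (mul_le_mul_of_nonneg_right ?_ hlog)
        exact_mod_cast Nat.mul_le_mul_left _ hh.2
    _ = ((N / m + 2) * y : ℕ) * Real.log ((4 * N : ℕ) : ℝ) * y := by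
        rw [sum_const, Nat.card_Ioc, Nat.sub_zero, nsmul_eq_mul]
        ring

end Pool.Agent.NH15.FQ
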