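import Pool.Agent.NH15.FQ.Fin

set_option autoImplicit false

/-! The lower bound for the number of the representations. -/

namespace Pool.Agent.NH15.FQ

open Finset Filter
open Pool.Agent.W301.SS
open Pool.Agent.H373R2.T7

lemma nine : ∀ᶠ M : ℕ in atTop, ∀ ℓ : ℕ, (M : ℝ) ^ ((49 : ℝ) / 400) ≤ ℓ → 2 * (M + 1) ≤ ℓ ^ 9 := by
  have h1 : Tendsto (fun M : ℕ => (M : ℝ) ^ ((41 : ℝ) / 400)) atTop atTop :=
    (tendsto_rpow_atTop (by norm_num)).comp tendsto_natCast_atTop_atTop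
  filter_upwards [h1.eventually_ge_atTop 4, eventually_ge_atTop 1] with M hM hM1 ℓ hℓ
  have h2 : (1 : ℝ) ≤ M := by exact_mod_cast hM1
  have h3 : ((M : ℝ) ^ ((49 : ℝ) / 400)) ^ 9 = (M : ℝ) ^ ((41 : ℝ) / 400) * M := by
    calc ((M : ℝ) ^ ((49 : ℝ) / 400)) ^ 9 = (M : ℝ) ^ ((41 : ℝ) / 400 + 1) := by
          rw [← Real.rpow_natCast, ← Real.rpow_mul (by linarith)]
          norm_num
      _ = (M : ℝ) ^ ((41 : ℝ) / 400) * M := by
          rw [Real.rpow_add (by linarith), Real.rpow_one]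
  have h4 : ((M : ℝ) ^ ((49 : ℝ) / 400)) ^ 9 ≤ (ℓ : ℝ) ^ 9 := pow_le_pow_left₀ (by positivity) hℓ 9
  have h5 : 2 * ((M : ℝ) + 1) ≤ (ℓ : ℝ) ^ 9 := by
    rw [h3] at h4
    nlinarith
  exact_mod_cast h5

/-- `(m, t)` is admissible and has many representations -/
def Many (c : ℝ) (m t : ℕ) : Prop :=
  4 ≤ m ∧ 2 * m + 1 < t ∧
    c * t / (Real.log t * Real.log ((t : ℝ) / m) ^ 2) ≤ ({p : ℕ | p < t ∧ Rep m t p}.ncard : ℝ)

open Classical in
lemma card_rep (m t : ℕ) : {p : ℕ | p < t ∧ Rep m t p}.ncard = ((range t).filter (Rep m t)).card := by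
  rw [← Set.ncard_coe_finset]
  apply congrArg Set.ncard
  ext p
  rw [mem_coe, mem_filter, mem_range]
  exact Iff.rfl

lemma point (c1 : ℝ) (hc1 : 0 < c1) (m N M t : ℕ) (hm : 0 < m) (hMd : M = N / m) (hM3 : 3 ≤ M)
    (hQ : c1 * (M / Real.log M ^ 2) ≤ ((QF M).card : ℝ)) (hQ2 : 2 ≤ c1 * (M / Real.log M ^ 2))
    (h9 : ∀ ℓ : ℕ, (M : ℝ) ^ ((49 : ℝ) / 400) ≤ ℓ → 2 * (M + 1) ≤ ℓ ^ 9) (ht : N < t) (ht2 : t ≤ 2 * N)
    (hL : 8 / c1 ≤ Real.log N) (hL2 : 1 ≤ Real.log N)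
    (hS : |∑ b ∈ SA m N (QS M), om (t - b) - ((SA m N (QS M)).card : ℝ)| ≤ N / Real.log N ^ 3) :
    c1 / 32 * t / (Real.log t * Real.log ((t : ℝ) / m) ^ 2) ≤ ({p : ℕ | p < t ∧ Rep m t p}.ncard : ℝ) := by
  classical
  rw [card_rep]
  obtain ⟨R, hR⟩ : ∃ R, R = (((range t).filter (Rep m t)).card : ℝ) := ⟨_, rfl⟩
  have hR0 : 0 ≤ R := by rw [hR]; exact Nat.cast_nonneg _
  have hmM : m * M ≤ N := by rw [hMd]; exact Nat.mul_div_le _ _
  have hmM1 : N < m * (M + 1) := by rw [hMd]; exact Nat.lt_mul_div_succ _ hm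
  have h1 := SA_low m N M hmM
  have h2 := count_low m N M t hm hmM1 ht ht2 h9
  rw [← hR] at h2 ⊢
  have hmr : (1 : ℝ) ≤ m := by exact_mod_cast hm
  have hMr : (3 : ℝ) ≤ M := by exact_mod_cast hM3
  have hNr : (0 : ℝ) < N := by exact_mod_cast (by omega : 0 < N)
  have htr : (N : ℝ) < t := by exact_mod_cast ht
  have htr2 : (t : ℝ) ≤ 2 * N := by exact_mod_cast ht2
  have e1 : (M : ℝ) ≤ N / m := by
    rw [le_div_iff₀ (by linarith), mul_comm]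
    exact_mod_cast hmM
  obtain ⟨L, hLd⟩ : ∃ L, L = Real.log N := ⟨_, rfl⟩
  obtain ⟨Λ, hΛ⟩ : ∃ Λ, Λ = Real.log ((N : ℝ) / m) := ⟨_, rfl⟩
  have e2 : Real.log M ≤ Λ := by rw [hΛ]; exact Real.log_le_log (by linarith) e1
  have e3 : 0 < Real.log M := Real.log_pos (by linarith)
  have e4 : Λ ≤ L := by
    rw [hΛ, hLd]
    exact Real.log_le_log (by positivity) (div_le_self hNr.le hmr)
  have hΛ0 : 0 < Λ := by linarith
  rw [← hLd] at hL hL2 hS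
  have hL0 : 0 < L := by linarith
  have e5 : (N : ℝ) / 2 ≤ m * M := by
    have h3 : (N : ℝ) < m * (M + 1) := by exact_mod_cast hmM1
    have h4 : (m : ℝ) * 1 ≤ m * M := mul_le_mul_of_nonneg_left (by linarith) (by linarith)
    linarith
  have e6 : c1 / 4 * (N / Λ ^ 2) ≤ ((SA m N (QS M)).card : ℝ) := by
    refine le_trans ?_ h1
    calc c1 / 4 * (N / Λ ^ 2) ≤ c1 / 4 * (N / Real.log M ^ 2) := by gcongr
      _ = c1 / 2 * ((N / 2) / Real.log M ^ 2) := by ring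
      _ ≤ c1 / 2 * ((m * M) / Real.log M ^ 2) := by gcongr
      _ = m * (1 / 2 * (c1 * (M / Real.log M ^ 2))) := by ring
      _ ≤ m * ((QF M).card - 1) := by
          apply mul_le_mul_of_nonneg_left _ (by linarith)
          linarith
  have e7 : N / L ^ 3 ≤ c1 / 8 * (N / Λ ^ 2) := by
    have h3 : 1 ≤ c1 / 8 * L := by
      rw [div_le_iff₀ hc1] at hL
      linarith
    rw [div_le_iff₀ (by positivity)]
    calc (N : ℝ) = 1 * (N / Λ ^ 2 * Λ ^ 2) := by field_simp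
      _ ≤ (c1 / 8 * L) * (N / Λ ^ 2 * L ^ 2) := by gcongr
      _ = c1 / 8 * (N / Λ ^ 2) * L ^ 3 := by ring
  have e8 : c1 / 8 * (N / Λ ^ 2) ≤ R * Real.log ((2 * N : ℕ) : ℝ) := by
    have h3 := (abs_le.1 hS).1
    linarith
  have e9 : Real.log ((2 * N : ℕ) : ℝ) ≤ 2 * L := by
    push_cast
    rw [Real.log_mul (by norm_num) hNr.ne', ← hLd]
    have h3 := Real.log_two_lt_d9
    linarith
  have e10 : c1 / 16 * (N / (L * Λ ^ 2)) ≤ R := by
    have h3 : c1 / 8 * (N / Λ ^ 2) ≤ R * (2 * L) := e8.trans (mul_le_mul_of_nonneg_left e9 hR0)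
    have h4 : c1 / 8 * (N / Λ ^ 2) = c1 / 16 * (N / (L * Λ ^ 2)) * (2 * L) := by
      field_simp
      ring
    rw [h4] at h3
    exact le_of_mul_le_mul_right h3 (by positivity)
  have e11 : L ≤ Real.log t := by rw [hLd]; exact Real.log_le_log hNr htr.le
  have e12 : Λ ≤ Real.log ((t : ℝ) / m) := by
    rw [hΛ]
    apply Real.log_le_log (by positivity)
    exact div_le_div_of_nonneg_right htr.le (by linarith)
  calc c1 / 32 * t / (Real.log t * Real.log ((t : ℝ) / m) ^ 2)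
      ≤ c1 / 32 * (2 * N) / (L * Λ ^ 2) := by
        apply div_le_div₀ (by positivity)
        · exact mul_le_mul_of_nonneg_left htr2 (by positivity)
        · positivity
        · apply mul_le_mul e11 (pow_le_pow_left₀ hΛ0.le e12 2) (by positivity) (by linarith)
    _ = c1 / 16 * (N / (L * Λ ^ 2)) := by ring
    _ ≤ R := e10

theorem low (h : AN) : ∃ c : ℝ, 0 < c ∧ ∃ D : ℕ, ∀ k B E C : ℕ, ∃ K : ℕ, ∀ N : ℕ, K ≤ N → ∀ (x : ℕ) (s : ℕ → ℤ),
    (∀ j ∈ Icc 1 x, |s j| ≤ B * N) →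
    (energy k x s : ℝ) * N ≤ Real.log N ^ E * (x : ℝ) ^ (2 * k) →
    ∀ m : ℕ, Real.log N ^ K ≤ m → D * m ≤ N →
    ({j : ℕ | 1 ≤ j ∧ j ≤ x ∧ N < s j ∧ s j ≤ 2 * N ∧ ¬ Many c m (s j).toNat}.ncard : ℝ) ≤
      x / Real.log N ^ C := by
  classical
  obtain ⟨c1, hc1, h1⟩ := QF_low h
  have hlog : Tendsto (fun N : ℕ => Real.log (N : ℝ)) atTop atTop :=
    Real.tendsto_log_atTop.comp tendsto_natCast_atTop_atTop
  have hML : ∀ᶠ M : ℕ in atTop, 2 ≤ c1 * (M / Real.log M ^ 2) := by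
    have h5 : ∀ᶠ t : ℝ in atTop, ‖Real.log t ^ 2‖ ≤ c1 / 2 * ‖id t‖ :=
      (Real.isLittleO_pow_log_id_atTop (n := 2)).bound (by positivity)
    filter_upwards [tendsto_natCast_atTop_atTop.eventually h5, hlog.eventually_ge_atTop 1] with N hN hN1
    simp only [id, Real.norm_eq_abs, Nat.abs_cast] at hN
    have h6 := (le_abs_self _).trans hN
    rw [← mul_div_assoc, le_div_iff₀ (by positivity)]
    linarith
  obtain ⟨D, hD⟩ := eventually_atTop.1 ((h1.and hML).and (nine.and (eventually_ge_atTop 3)))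
  refine ⟨c1 / 32, by positivity, D + 3, fun k B E C => ?_⟩
  obtain ⟨K0, h0⟩ := genQ k B E (C + 3)
  obtain ⟨N1, hN1⟩ := eventually_atTop.1 (hlog.eventually_ge_atTop (8 / c1 + 4))
  refine ⟨K0 + N1 + 1, fun N hN x s hs hE m hm hDm => ?_⟩
  have hL := hN1 N (by omega)
  have hc8 : 0 < 8 / c1 := by positivity
  have hL4 : 4 ≤ Real.log N := by linarith
  have hL1 : 1 ≤ Real.log N := by linarith
  have hm' : Real.log N ^ K0 ≤ m := (pow_le_pow_right₀ hL1 (by omega)).trans hm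
  have hm4 : 4 ≤ m := by
    have h5 : (4 : ℝ) ≤ m := by
      refine hL4.trans (le_trans ?_ hm)
      calc Real.log N = Real.log N ^ 1 := (pow_one _).symm
        _ ≤ Real.log N ^ (K0 + N1 + 1) := pow_le_pow_right₀ hL1 (by omega)
    exact_mod_cast h5
  obtain ⟨M, hM⟩ : ∃ M, M = N / m := ⟨_, rfl⟩
  have hMD : D + 3 ≤ M := by
    rw [hM, Nat.le_div_iff_mul_le (by omega)]
    exact hDm
  obtain ⟨⟨g1, g2⟩, g3, g4⟩ := hD M (by omega)
  have hmain := h0 N (by omega) x s hs hE m hm' (QS M)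
  have hsub : {j : ℕ | 1 ≤ j ∧ j ≤ x ∧ N < s j ∧ s j ≤ 2 * N ∧ ¬ Many (c1 / 32) m (s j).toNat} ⊆
      {j : ℕ | 1 ≤ j ∧ j ≤ x ∧ N < s j ∧ s j ≤ 2 * N ∧
      ¬ |∑ b ∈ SA m N (QS M), om ((s j).toNat - b) - ((SA m N (QS M)).card : ℝ)| ≤ N / Real.log N ^ (C + 3)} := by
    rintro j ⟨q1, q2, q3, q4, q5⟩
    refine ⟨q1, q2, q3, q4, fun q6 => q5 ⟨hm4, ?_, ?_⟩⟩
    · have h5 : 3 * m ≤ (D + 3) * m := Nat.mul_le_mul_right _ (by omega)
      omega
    · refine point c1 hc1 m N M (s j).toNat (by omega) hM g4 g1 g2 g3 (by omega) (by omega) (by linarith) hL1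
        (q6.trans ?_)
      apply div_le_div_of_nonneg_left (Nat.cast_nonneg _) (by positivity)
      exact pow_le_pow_right₀ hL1 (by omega)
  have hfin : {j : ℕ | 1 ≤ j ∧ j ≤ x ∧ N < s j ∧ s j ≤ 2 * N ∧
      ¬ |∑ b ∈ SA m N (QS M), om ((s j).toNat - b) - ((SA m N (QS M)).card : ℝ)| ≤
        N / Real.log N ^ (C + 3)}.Finite :=
    (Set.finite_Iic x).subset fun j hj => hj.2.1
  have h5 : ({j : ℕ | 1 ≤ j ∧ j ≤ x ∧ N < s j ∧ s j ≤ 2 * N ∧ ¬ Many (c1 / 32) m (s j).toNat}.ncard : ℝ) ≤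
      ({j : ℕ | 1 ≤ j ∧ j ≤ x ∧ N < s j ∧ s j ≤ 2 * N ∧
      ¬ |∑ b ∈ SA m N (QS M), om ((s j).toNat - b) - ((SA m N (QS M)).card : ℝ)| ≤
        N / Real.log N ^ (C + 3)}.ncard : ℝ) := by
    exact_mod_cast Set.ncard_le_ncard hsub hfin
  refine h5.trans (hmain.trans ?_)
  apply div_le_div_of_nonneg_left (Nat.cast_nonneg _) (by positivity)
  exact pow_le_pow_right₀ hL1 (by omega)

end Pool.Agent.NH15.FQ
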