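import Pool.Agent.NH15.FQ.Gen

set_option autoImplicit false

/-! The asymptotic formula for nearly all members of a thin family. -/

namespace Pool.Agent.NH15.FQ

open Finset Filter
open Pool.Agent.W301.SS
open Pool.Agent.TH646.TT
open Pool.Agent.H373R2.T7

lemma energy_sub (k x : ℕ) (s : ℕ → ℤ) (c : ℤ) : energy k x (fun j => s j - c) = energy k x s := by
  unfold energy
  congr 1
  apply filter_congr
  intro q _
  simp only [sum_sub_distrib, sub_left_inj]

lemma reind (m N y t : ℕ) (Q : Set ℕ) (ht : N < t) :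
    ∑ i ∈ Icc 1 N, (if N - i ∈ SA m N Q then (1 : ℝ) else 0) * (av y (i + (t - N)) - 1) =
      ∑ a ∈ SA m N Q, av y (t - a) - ((SA m N Q).card : ℝ) := by
  classical
  have h1 : ∑ i ∈ Icc 1 N, (if N - i ∈ SA m N Q then (1 : ℝ) else 0) * (av y (i + (t - N)) - 1) =
      ∑ a ∈ SA m N Q, (av y (t - a) - 1) := by
    have h2 : ∀ i, (if N - i ∈ SA m N Q then (1 : ℝ) else 0) * (av y (i + (t - N)) - 1) =
        if N - i ∈ SA m N Q then (av y (i + (t - N)) - 1) else 0 := by
      intro i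
      split_ifs <;> simp
    rw [sum_congr rfl fun i _ => h2 i, ← sum_filter]
    refine sum_nbij' (i := fun i : ℕ => N - i) (j := fun a : ℕ => N - a) ?_ ?_ ?_ ?_ ?_
    · intro i hi
      exact (mem_filter.1 hi).2
    · intro a ha
      have h3 := (mem_SA.1 ha).1
      rw [mem_filter, mem_Icc, Nat.sub_sub_self h3.le]
      exact ⟨by omega, ha⟩
    · intro i hi
      have := mem_Icc.1 (mem_filter.1 hi).1
      omega
    · intro a ha
      have h3 := (mem_SA.1 ha).1
      omega
    · intro i hi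
      have := mem_Icc.1 (mem_filter.1 hi).1
      have e : i + (t - N) = t - (N - i) := by omega
      rw [e]
  rw [h1, sum_sub_distrib, sum_const, nsmul_eq_mul, mul_one]

theorem genQ (k B E C : ℕ) : ∃ K : ℕ, ∀ N : ℕ, K ≤ N → ∀ (x : ℕ) (s : ℕ → ℤ),
    (∀ j ∈ Icc 1 x, |s j| ≤ B * N) →
    (energy k x s : ℝ) * N ≤ Real.log N ^ E * (x : ℝ) ^ (2 * k) →
    ∀ m : ℕ, Real.log N ^ K ≤ m → ∀ Q : Set ℕ,
    ({j : ℕ | 1 ≤ j ∧ j ≤ x ∧ N < s j ∧ s j ≤ 2 * N ∧
      ¬ |∑ b ∈ SA m N Q, om ((s j).toNat - b) - ((SA m N Q).card : ℝ)| ≤ N / Real.log N ^ C}.ncard : ℝ) ≤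
      x / Real.log N ^ C := by
  classical
  obtain ⟨K0, N0, h0⟩ := Pool.Agent.NH15.CT.theta_w k (B + 1) E (C + 1)
  have hlog : Tendsto (fun N : ℕ => Real.log (N : ℝ)) atTop atTop :=
    Real.tendsto_log_atTop.comp tendsto_natCast_atTop_atTop
  have h2 : ∀ᶠ N : ℕ in atTop, 16 ≤ Real.log (N : ℝ) := hlog.eventually_ge_atTop 16
  have h4 : ∀ᶠ N : ℕ in atTop, 16 * Real.log (N : ℝ) ^ (K0 + C + 2) ≤ N := by
    have h5 : ∀ᶠ t : ℝ in atTop, ‖Real.log t ^ (K0 + C + 2)‖ ≤ 1 / 16 * ‖id t‖ :=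
      (Real.isLittleO_pow_log_id_atTop (n := K0 + C + 2)).bound (by positivity)
    filter_upwards [tendsto_natCast_atTop_atTop.eventually h5] with N hN
    simp only [id, Real.norm_eq_abs, Nat.abs_cast] at hN
    have h6 := (le_abs_self _).trans hN
    linarith
  obtain ⟨N1, hN1⟩ := eventually_atTop.1 (h2.and h4)
  refine ⟨K0 + C + 3 + N0 + N1, fun N hN x s hs hE m hm Q => ?_⟩
  obtain ⟨g2, g4⟩ := hN1 N (by omega)
  obtain ⟨L, hL⟩ : ∃ L, L = Real.log N := ⟨_, rfl⟩
  rw [← hL] at g2 g4 hm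
  have hL1 : (1 : ℝ) ≤ L := by linarith
  have hL0 : (0 : ℝ) < L := by linarith
  have hLp : ∀ i : ℕ, 1 ≤ L ^ i := fun i => one_le_pow₀ hL1
  have hmK : L ^ (K0 + C + 3) ≤ m := (pow_le_pow_right₀ hL1 (by omega)).trans hm
  have hmr : (1 : ℝ) ≤ m := (hLp _).trans hmK
  have hm0 : 0 < m := by exact_mod_cast (lt_of_lt_of_le one_pos hmr)
  -- the length of the windows
  obtain ⟨y, hy⟩ : ∃ y, y = ⌈L ^ K0⌉₊ := ⟨_, rfl⟩
  have hy1 : L ^ K0 ≤ y := by rw [hy]; exact Nat.le_ceil _
  have hy2 : (y : ℝ) ≤ 2 * L ^ K0 := by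
    have := Nat.ceil_lt_add_one (show 0 ≤ L ^ K0 by positivity)
    rw [← hy] at this
    have := hLp K0
    linarith
  have hy0 : 0 < y := by
    have : (0 : ℝ) < y := lt_of_lt_of_le (by positivity) hy1
    exact_mod_cast this
  have hN0 : (1 : ℝ) ≤ N := by
    have := hLp (K0 + C + 2)
    linarith
  have hyN : y ≤ N := by
    have h5 : L ^ K0 ≤ L ^ (K0 + C + 2) := pow_le_pow_right₀ hL1 (by omega)
    have h6 : 0 ≤ L ^ (K0 + C + 2) := by positivity
    have : (y : ℝ) ≤ N := by linarith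
    exact_mod_cast this
  have hlog4 : Real.log ((4 * N : ℕ) : ℝ) ≤ 2 * L := by
    push_cast
    rw [Real.log_mul (by norm_num) (by linarith), ← hL]
    have h1 : Real.log 4 ≤ 2 := by
      have h2 : Real.log 4 = 2 * Real.log 2 := by
        rw [show (4 : ℝ) = 2 ^ 2 by norm_num, Real.log_pow]
        norm_num
      have h3 := Real.log_two_lt_d9
      rw [h2]
      linarith
    linarith
  have hlog0 : 0 ≤ Real.log ((4 * N : ℕ) : ℝ) := Real.log_natCast_nonneg _
  -- the error of the windows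
  have herr : (((N / m + 2) * y : ℕ) : ℝ) * Real.log ((4 * N : ℕ) : ℝ) ≤ N / (2 * L ^ C) := by
    have e1 : (((N / m : ℕ)) : ℝ) ≤ N / L ^ (K0 + C + 3) := by
      refine Nat.cast_div_le.trans ?_
      exact div_le_div_of_nonneg_left (by linarith) (by positivity) hmK
    have e2 : (2 : ℝ) ≤ N / (8 * L ^ (K0 + C + 2)) := by
      rw [le_div_iff₀ (by positivity)]
      linarith
    have e3 : N / L ^ (K0 + C + 3) ≤ N / (16 * L ^ (K0 + C + 2)) := by
      apply div_le_div_of_nonneg_left (by linarith) (by positivity)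
      calc 16 * L ^ (K0 + C + 2) ≤ L * L ^ (K0 + C + 2) := mul_le_mul_of_nonneg_right g2 (by positivity)
        _ = L ^ (K0 + C + 3) := by ring
    have e4 : (((N / m + 2 : ℕ)) : ℝ) ≤ 3 * (N / (16 * L ^ (K0 + C + 2))) := by
      push_cast
      have e5 : (N : ℝ) / (8 * L ^ (K0 + C + 2)) = 2 * (N / (16 * L ^ (K0 + C + 2))) := by
        field_simp
        ring
      rw [e5] at e2
      linarith
    calc (((N / m + 2) * y : ℕ) : ℝ) * Real.log ((4 * N : ℕ) : ℝ)
        = (((N / m + 2 : ℕ)) : ℝ) * y * Real.log ((4 * N : ℕ) : ℝ) := by push_cast; ring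
      _ ≤ 3 * (N / (16 * L ^ (K0 + C + 2))) * (2 * L ^ K0) * (2 * L) := by gcongr
      _ = 3 * N / (4 * L ^ (C + 1)) := by
          have : L ^ (K0 + C + 2) = L ^ K0 * L * L ^ (C + 1) := by ring
          rw [this]
          field_simp
          ring
      _ ≤ N / (2 * L ^ C) := by
          rw [div_le_div_iff₀ (by positivity) (by positivity)]
          have : L ^ (C + 1) = L ^ C * L := by ring
          rw [this]
          have h7 : 0 ≤ N * L ^ C := by positivity
          nlinarith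
  obtain ⟨S, hS⟩ : ∃ S : Finset ℕ, S = (Icc 1 x).filter (fun j => N < s j ∧ s j ≤ 2 * N ∧
      ¬ |∑ b ∈ SA m N Q, om ((s j).toNat - b) - ((SA m N Q).card : ℝ)| ≤ N / L ^ C) := ⟨_, rfl⟩
  have hSn : {j : ℕ | 1 ≤ j ∧ j ≤ x ∧ N < s j ∧ s j ≤ 2 * N ∧
      ¬ |∑ b ∈ SA m N Q, om ((s j).toNat - b) - ((SA m N Q).card : ℝ)| ≤ N / Real.log N ^ C}.ncard = S.card := by
    rw [show S.card = (S : Set ℕ).ncard from (Set.ncard_coe_finset S).symm]
    apply congrArg Set.ncard
    ext j
    rw [hS, mem_coe, mem_filter, mem_Icc, and_assoc, hL]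
    exact Iff.rfl
  have hmain := h0 N (by omega) x (fun j => s j - N)
    (by
      intro j hj
      have h5 := hs j hj
      rw [abs_le] at h5 ⊢
      push_cast
      constructor <;> nlinarith [h5.1, h5.2])
    (by
      rw [energy_sub k x s N]
      exact hE)
    (fun i => if N - i ∈ SA m N Q then (1 : ℝ) else 0)
    (by
      intro i
      split_ifs <;> simp)
    y (by rw [← hL]; exact hy1) (by omega) S (by rw [hS]; exact filter_subset _ _)
    (by
      intro j hj
      rw [hS, mem_filter] at hj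
      obtain ⟨_, g5, g6, g7⟩ := hj
      refine ⟨by omega, by omega, ?_⟩
      by_contra hcon
      push Not at hcon
      apply g7
      have e : (s j - (N : ℤ)).toNat = (s j).toNat - N := by omega
      rw [e, reind m N y (s j).toNat Q (by omega), ← hL] at hcon
      have hw := windows m N y (s j).toNat Q hm0 hy0 (by omega) (by omega) hyN
      have hw2 := hw.trans herr
      have e5 : N / L ^ (C + 1) ≤ N / (2 * L ^ C) := by
        apply div_le_div_of_nonneg_left (by linarith) (by positivity)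
        have : L ^ (C + 1) = L * L ^ C := by ring
        rw [this]
        exact mul_le_mul_of_nonneg_right (by linarith) (by positivity)
      have e6 : (N : ℝ) / (2 * L ^ C) + N / (2 * L ^ C) = N / L ^ C := by
        field_simp
        ring
      obtain ⟨a1, a2⟩ := abs_le.1 hcon
      obtain ⟨b1, b2⟩ := abs_le.1 hw2
      rw [abs_le]
      constructor <;> linarith)
  rw [hSn]
  refine hmain.trans ?_
  rw [← hL]
  apply div_le_div_of_nonneg_left (Nat.cast_nonneg _) (by positivity)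
  exact pow_le_pow_right₀ hL1 (by omega)

end Pool.Agent.NH15.FQ
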